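import Pool.Graph.R_seed8.Helper406.AltExample

/-!
# Every Hilbert space of dimension at least two has non-Hilbert norms, arbitrarily close to the
Hilbert norm, which admit the alternating method

The norm is `N(x)² = |x|² + δ (|x| + |Bx|)²` with `Bx = x + ⟨e, x⟩ e`, `|e| = 1`, `0 < δ ≤ 1`.
-/

set_option autoImplicit false

open Filter Topology
open Pool.Agent.Helper406.AltMethod

namespace Pool.Agent.Results.MP_b372c7_an.EveryHilbertSpace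

section real_lemmas

lemma le_of_sq {a b : ℝ} (h : a ^ 2 ≤ b ^ 2) (hb : 0 ≤ b) : a ≤ b :=
  le_of_sq_le_sq h hb

lemma real_upper {δ p p' q q' a b c d : ℝ} (hδ : 0 ≤ δ) (hδ1 : δ ≤ 1) (ha : 0 ≤ a) (hc : 0 ≤ c)
    (hab : a ≤ b) (hba : b ≤ 2 * a) (hcd : c ≤ d)
    (h1 : p ^ 2 + p' ^ 2 = 2 * (a ^ 2 + c ^ 2)) (h2 : q ^ 2 + q' ^ 2 = 2 * (b ^ 2 + d ^ 2)) :
    (p ^ 2 + δ * (p + q) ^ 2) + (p' ^ 2 + δ * (p' + q') ^ 2) ≤
      2 * (a ^ 2 + δ * (a + b) ^ 2) + 2 * 2 * (c ^ 2 + δ * (c + d) ^ 2) := by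
  have hb : 0 ≤ b := ha.trans hab
  have hd : 0 ≤ d := hc.trans hcd
  set T := (d ^ 2 + 2 * c ^ 2) / 2 with hT
  have hT0 : 0 ≤ T := by positivity
  have hX1 : (p * q + p' * q') ^ 2 ≤ (p ^ 2 + p' ^ 2) * (q ^ 2 + q' ^ 2) := by
    nlinarith [sq_nonneg (p * q' - p' * q)]
  have hcross : (a ^ 2 + c ^ 2) * (b ^ 2 + d ^ 2) ≤ (a * b + T) ^ 2 := by
    have h3 : a ^ 2 * d ^ 2 ≤ a * b * d ^ 2 := by
      have : a ^ 2 ≤ a * b := by nlinarith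
      exact mul_le_mul_of_nonneg_right this (sq_nonneg _)
    have h4 : b ^ 2 * c ^ 2 ≤ 2 * (a * b) * c ^ 2 := by
      have : b ^ 2 ≤ 2 * (a * b) := by nlinarith
      exact mul_le_mul_of_nonneg_right this (sq_nonneg _)
    have h5 : c * d ≤ T := by
      rw [hT]; nlinarith [sq_nonneg (c - d)]
    have h6 : c ^ 2 * d ^ 2 ≤ T ^ 2 := by
      have := pow_le_pow_left₀ (by positivity) h5 2
      nlinarith
    have e : (a * b + T) ^ 2 = a ^ 2 * b ^ 2 + a * b * d ^ 2 + 2 * (a * b) * c ^ 2 + T ^ 2 := by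
      rw [hT]; ring
    rw [e]
    nlinarith
  have hX2 : (p * q + p' * q') ^ 2 ≤ (2 * (a * b + T)) ^ 2 := by
    rw [h1, h2] at hX1
    nlinarith
  have hX : p * q + p' * q' ≤ 2 * (a * b + T) :=
    le_of_sq_le_sq hX2 (by positivity)
  have e2 : 2 * T = d ^ 2 + 2 * c ^ 2 := by rw [hT]; ring
  have h7 : (p + q) ^ 2 + (p' + q') ^ 2 ≤ 2 * (a + b) ^ 2 + 2 * c ^ 2 + 4 * (c + d) ^ 2 := by
    nlinarith [mul_nonneg hc hd]
  have h8 := mul_le_mul_of_nonneg_left h7 hδ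
  have h9 : δ * c ^ 2 ≤ 1 * c ^ 2 := mul_le_mul_of_nonneg_right hδ1 (sq_nonneg c)
  nlinarith

lemma real_lower {δ p p' q q' a b c d : ℝ} (hδ : 0 ≤ δ) (hδ1 : δ ≤ 1) (ha : 0 ≤ a) (hc : 0 ≤ c)
    (hab : a ≤ b) (hcd : c ≤ d) (hdc : d ≤ 2 * c)
    (h1 : p ^ 2 + p' ^ 2 = 2 * (a ^ 2 + c ^ 2)) (h3 : 2 * a ≤ p + p') (h4 : 2 * b ≤ q + q') :
    2 * (a ^ 2 + δ * (a + b) ^ 2) + 2 * (1 / 10) * (c ^ 2 + δ * (c + d) ^ 2) ≤
      (p ^ 2 + δ * (p + q) ^ 2) + (p' ^ 2 + δ * (p' + q') ^ 2) := by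
  have hb : 0 ≤ b := ha.trans hab
  have hd : 0 ≤ d := hc.trans hcd
  have h5 : (2 * (a + b)) ^ 2 ≤ ((p + q) + (p' + q')) ^ 2 :=
    pow_le_pow_left₀ (by positivity) (by linarith) 2
  have h6 : (c + d) ^ 2 ≤ (3 * c) ^ 2 := pow_le_pow_left₀ (by positivity) (by linarith) 2
  have h7 : 2 * (a + b) ^ 2 ≤ (p + q) ^ 2 + (p' + q') ^ 2 := by
    nlinarith [sq_nonneg ((p + q) - (p' + q'))]
  have h8 := mul_le_mul_of_nonneg_left h7 hδ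
  have h9 := mul_le_mul_of_nonneg_left h6 hδ
  have h10 : δ * c ^ 2 ≤ 1 * c ^ 2 := mul_le_mul_of_nonneg_right hδ1 (sq_nonneg c)
  nlinarith

end real_lemmas

section space

universe u

variable (𝕜 : Type) [RCLike 𝕜] {K : Type u} [NormedAddCommGroup K] [InnerProductSpace 𝕜 K]

/-- `B x = x + ⟪e, x⟫ e` -/
noncomputable def B (e : K) : K →L[𝕜] K :=
  ContinuousLinearMap.id 𝕜 K + (innerSL 𝕜 e).smulRight e

variable (K) in
/-- the ambient space -/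
abbrev F : Type u := WithLp 2 (K × WithLp 1 (K × K))

/-- the embedding `x ↦ (x, (s x, s B x))` -/
noncomputable def T (s : ℝ) (e : K) : K →L[𝕜] F K :=
  ((WithLp.prodContinuousLinearEquiv 2 𝕜 K (WithLp 1 (K × K))).symm :
      K × WithLp 1 (K × K) →L[𝕜] F K) ∘L
    ((ContinuousLinearMap.id 𝕜 K).prod
      (((WithLp.prodContinuousLinearEquiv 1 𝕜 K K).symm :
        K × K →L[𝕜] WithLp 1 (K × K)) ∘L
        (((s : 𝕜) • ContinuousLinearMap.id 𝕜 K).prod ((s : 𝕜) • B 𝕜 e))))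

variable {s : ℝ} (hs : 0 ≤ s) {e : K} (he : ‖e‖ = 1)

include hs in
lemma T_norm (x : K) : ‖T 𝕜 s e x‖ ^ 2 = ‖x‖ ^ 2 + s ^ 2 * (‖x‖ + ‖B 𝕜 e x‖) ^ 2 := by
  rw [WithLp.prod_norm_sq_eq_of_L2]
  have h1 : (T 𝕜 s e x).fst = x := rfl
  have h2 : (T 𝕜 s e x).snd = WithLp.toLp 1 ((s : 𝕜) • x, (s : 𝕜) • B 𝕜 e x) := rfl
  rw [h1, h2, WithLp.prod_norm_eq_of_L1]
  change ‖x‖ ^ 2 + (‖(s : 𝕜) • x‖ + ‖(s : 𝕜) • B 𝕜 e x‖) ^ 2 = _
  rw [norm_smul, norm_smul, RCLike.norm_ofReal, abs_of_nonneg hs]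
  ring

lemma B_apply (x : K) : B 𝕜 e x = x + (inner 𝕜 e x : 𝕜) • e := by
  simp [B]

include he in
lemma B_norm (x : K) : ‖B 𝕜 e x‖ ^ 2 = ‖x‖ ^ 2 + 3 * ‖(inner 𝕜 e x : 𝕜)‖ ^ 2 := by
  rw [B_apply, norm_add_sq (𝕜 := 𝕜), norm_smul, he, inner_smul_right]
  have h : (inner 𝕜 e x : 𝕜) * inner 𝕜 x e = ((‖(inner 𝕜 e x : 𝕜)‖ ^ 2 : ℝ) : 𝕜) := by
    rw [← inner_conj_symm x e, RCLike.mul_conj]
    push_cast; rfl
  rw [h, RCLike.ofReal_re]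
  ring

include he in
lemma le_B (x : K) : ‖x‖ ≤ ‖B 𝕜 e x‖ := by
  have := B_norm 𝕜 he x
  apply le_of_sq_le_sq _ (norm_nonneg _)
  nlinarith [sq_nonneg ‖(inner 𝕜 e x : 𝕜)‖]

include he in
lemma B_le (x : K) : ‖B 𝕜 e x‖ ≤ 2 * ‖x‖ := by
  have h := B_norm 𝕜 he x
  have h2 : ‖(inner 𝕜 e x : 𝕜)‖ ≤ ‖x‖ := by
    have := norm_inner_le_norm (𝕜 := 𝕜) e x
    rwa [he, one_mul] at this
  have h3 := pow_le_pow_left₀ (norm_nonneg _) h2 2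
  apply le_of_sq_le_sq _ (by positivity)
  nlinarith

include 𝕜 in
lemma two_mul_le (x y : K) : 2 * ‖x‖ ≤ ‖x + y‖ + ‖x - y‖ := by
  have h := norm_add_le (x + y) (x - y)
  have e : x + y + (x - y) = (2 : 𝕜) • x := by rw [two_smul]; abel
  rw [e, norm_smul] at h
  simpa using h

/-- the Banach space -/
abbrev X (s : ℝ) (e : K) : Type u := (LinearMap.range (T 𝕜 s e : K →ₗ[𝕜] F K) : Submodule 𝕜 (F K))

lemma X_exists (u : X 𝕜 s e) : ∃ x : K, (u : F K) = T 𝕜 s e x := by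
  obtain ⟨x, hx⟩ := u.2
  exact ⟨x, hx.symm⟩

include hs he in
lemma X_upper (hs1 : s ≤ 1) (u v : X 𝕜 s e) :
    ‖u + v‖ ^ 2 + ‖u - v‖ ^ 2 ≤ 2 * ‖u‖ ^ 2 + 2 * 2 * ‖v‖ ^ 2 := by
  obtain ⟨x, hx⟩ := X_exists 𝕜 u
  obtain ⟨y, hy⟩ := X_exists 𝕜 v
  have h1 : ‖u + v‖ = ‖T 𝕜 s e (x + y)‖ := by
    rw [map_add, ← hx, ← hy]; rfl
  have h2 : ‖u - v‖ = ‖T 𝕜 s e (x - y)‖ := by
    rw [map_sub, ← hx, ← hy]; rfl
  have h3 : ‖u‖ = ‖T 𝕜 s e x‖ := by rw [← hx]; rfl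
  have h4 : ‖v‖ = ‖T 𝕜 s e y‖ := by rw [← hy]; rfl
  rw [h1, h2, h3, h4, T_norm 𝕜 hs, T_norm 𝕜 hs, T_norm 𝕜 hs, T_norm 𝕜 hs]
  have h5 := parallelogram_law_with_norm 𝕜 (B 𝕜 e x) (B 𝕜 e y)
  rw [← map_add, ← map_sub] at h5
  have h6 := parallelogram_law_with_norm 𝕜 x y
  refine real_upper (sq_nonneg s) ?_ (norm_nonneg _) (norm_nonneg _) (le_B 𝕜 he x) (B_le 𝕜 he x)
    (le_B 𝕜 he y) ?_ ?_
  · exact pow_le_one₀ hs hs1
  · simpa only [sq] using h6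
  · simpa only [sq] using h5

include hs he in
lemma X_lower (hs1 : s ≤ 1) (u v : X 𝕜 s e) :
    2 * ‖u‖ ^ 2 + 2 * (1 / 10) * ‖v‖ ^ 2 ≤ ‖u + v‖ ^ 2 + ‖u - v‖ ^ 2 := by
  obtain ⟨x, hx⟩ := X_exists 𝕜 u
  obtain ⟨y, hy⟩ := X_exists 𝕜 v
  have h1 : ‖u + v‖ = ‖T 𝕜 s e (x + y)‖ := by
    rw [map_add, ← hx, ← hy]; rfl
  have h2 : ‖u - v‖ = ‖T 𝕜 s e (x - y)‖ := by
    rw [map_sub, ← hx, ← hy]; rfl
  have h3 : ‖u‖ = ‖T 𝕜 s e x‖ := by rw [← hx]; rfl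
  have h4 : ‖v‖ = ‖T 𝕜 s e y‖ := by rw [← hy]; rfl
  rw [h1, h2, h3, h4, T_norm 𝕜 hs, T_norm 𝕜 hs, T_norm 𝕜 hs, T_norm 𝕜 hs]
  have h5 := two_mul_le 𝕜 (B 𝕜 e x) (B 𝕜 e y)
  rw [← map_add, ← map_sub] at h5
  have h6 := parallelogram_law_with_norm 𝕜 x y
  refine real_lower (sq_nonneg s) ?_ (norm_nonneg _) (norm_nonneg _) (le_B 𝕜 he x) (le_B 𝕜 he y)
    (B_le 𝕜 he y) ?_ (two_mul_le 𝕜 x y) h5
  · exact pow_le_one₀ hs hs1
  · simpa only [sq] using h6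

/-- the canonical isomorphism with `K` -/
noncomputable def equivK (s : ℝ) (e : K) : X 𝕜 s e ≃L[𝕜] K :=
  ContinuousLinearEquiv.equivOfInverse
    ((ContinuousLinearMap.fst 𝕜 K (WithLp 1 (K × K))) ∘L
      ((WithLp.prodContinuousLinearEquiv 2 𝕜 K (WithLp 1 (K × K))) :
        F K →L[𝕜] K × WithLp 1 (K × K)) ∘L (Submodule.subtypeL _))
    ((T 𝕜 s e).codRestrict (LinearMap.range (T 𝕜 s e : K →ₗ[𝕜] F K)) (fun x => ⟨x, rfl⟩))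
    (by
      intro u
      obtain ⟨x, hx⟩ := X_exists 𝕜 u
      have hu : u = ⟨T 𝕜 s e x, ⟨x, rfl⟩⟩ := Subtype.ext hx
      rw [hu]
      rfl)
    (by intro x; rfl)

lemma X_complete [CompleteSpace K] : CompleteSpace (X 𝕜 s e) :=
  (completeSpace_congr (e := (equivK 𝕜 s e).toEquiv)
    (equivK 𝕜 s e).isUniformEmbedding).mpr inferInstance

lemma X_reflexive [CompleteSpace K] : ReflexiveSpace 𝕜 (X 𝕜 s e) := by
  intro φ
  obtain ⟨x, hx⟩ := reflexive_of_equiv (equivK 𝕜 s e) hilbert_reflexive φ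
  exact ⟨x, fun f => by rw [← hx, NormedSpace.dual_def]⟩

/-- elements of `X` -/
noncomputable def el (s : ℝ) (e : K) (x : K) : X 𝕜 s e := ⟨T 𝕜 s e x, ⟨x, rfl⟩⟩

include hs in
lemma el_norm (x : K) : ‖el 𝕜 s e x‖ ^ 2 = ‖x‖ ^ 2 + s ^ 2 * (‖x‖ + ‖B 𝕜 e x‖) ^ 2 :=
  T_norm 𝕜 hs x

include he in
lemma X_not_inner (hs0 : 0 < s) {f : K} (hf : ‖f‖ = 1) (hef : inner 𝕜 e f = (0 : 𝕜)) :
    ¬ ∃ c : InnerProductSpace.Core 𝕜 (X 𝕜 s e), ∀ x : X 𝕜 s e, ‖x‖ ^ 2 = RCLike.re (c.inner x x) := by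
  rintro ⟨c, hc⟩
  let _ := c
  have hpar : ∀ x y : X 𝕜 s e, ‖x + y‖ ^ 2 + ‖x - y‖ ^ 2 = 2 * ‖x‖ ^ 2 + 2 * ‖y‖ ^ 2 := by
    intro x y
    rw [hc, hc, hc, hc]
    have h1 := InnerProductSpace.Core.inner_add_add_self (𝕜 := 𝕜) x y
    have h2 := InnerProductSpace.Core.inner_sub_sub_self (𝕜 := 𝕜) x y
    have h1' : RCLike.re (c.inner (x + y) (x + y)) = RCLike.re (c.inner x x) +
        RCLike.re (c.inner x y) + RCLike.re (c.inner y x) + RCLike.re (c.inner y y) := by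
      rw [← map_add, ← map_add, ← map_add]; exact congrArg _ h1
    have h2' : RCLike.re (c.inner (x - y) (x - y)) = RCLike.re (c.inner x x) -
        RCLike.re (c.inner x y) - RCLike.re (c.inner y x) + RCLike.re (c.inner y y) := by
      rw [← map_sub, ← map_sub, ← map_add]; exact congrArg _ h2
    rw [h1', h2']; ring
  have h := hpar (el 𝕜 s e e) (el 𝕜 s e f)
  have e1 : el 𝕜 s e e + el 𝕜 s e f = el 𝕜 s e (e + f) :=
    Subtype.ext (map_add (T 𝕜 s e) _ _).symm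
  have e2 : el 𝕜 s e e - el 𝕜 s e f = el 𝕜 s e (e - f) :=
    Subtype.ext (map_sub (T 𝕜 s e) _ _).symm
  rw [e1, e2, el_norm 𝕜 hs0.le, el_norm 𝕜 hs0.le, el_norm 𝕜 hs0.le, el_norm 𝕜 hs0.le] at h
  have i00 : inner 𝕜 e e = (1 : 𝕜) := by
    rw [inner_self_eq_norm_sq_to_K, he]; simp
  have nadd : ‖e + f‖ ^ 2 = 2 := by
    rw [norm_add_sq (𝕜 := 𝕜), he, hf, hef]; norm_num
  have nsub : ‖e - f‖ ^ 2 = 2 := by
    rw [norm_sub_sq (𝕜 := 𝕜), he, hf, hef]; norm_num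
  have badd : ‖B 𝕜 e (e + f)‖ ^ 2 = 5 := by
    rw [B_norm 𝕜 he, nadd, inner_add_right, i00, hef]; norm_num
  have bsub : ‖B 𝕜 e (e - f)‖ ^ 2 = 5 := by
    rw [B_norm 𝕜 he, nsub, inner_sub_right, i00, hef]; norm_num
  have b0 : ‖B 𝕜 e e‖ ^ 2 = 4 := by
    rw [B_norm 𝕜 he, he, i00]; norm_num
  have b1 : ‖B 𝕜 e f‖ ^ 2 = 1 := by
    rw [B_norm 𝕜 he, hf, hef]; norm_num
  have b0' : ‖B 𝕜 e e‖ = 2 := by
    have : ‖B 𝕜 e e‖ ^ 2 = 2 ^ 2 := by rw [b0]; norm_num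
    exact (pow_left_inj₀ (norm_nonneg _) (by norm_num) two_ne_zero).mp this
  have b1' : ‖B 𝕜 e f‖ = 1 := by
    have : ‖B 𝕜 e f‖ ^ 2 = 1 ^ 2 := by rw [b1]; norm_num
    exact (pow_left_inj₀ (norm_nonneg _) (by norm_num) two_ne_zero).mp this
  rw [he, hf, b0', b1'] at h
  set a := ‖e + f‖
  set a' := ‖e - f‖
  set b := ‖B 𝕜 e (e + f)‖
  set b' := ‖B 𝕜 e (e - f)‖
  have ha : 0 ≤ a := norm_nonneg _
  have ha' : 0 ≤ a' := norm_nonneg _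
  have hb : 0 ≤ b := norm_nonneg _
  have hb' : 0 ≤ b' := norm_nonneg _
  have hab : a * b = √10 := by
    have h1 : (a * b) ^ 2 = 10 := by rw [mul_pow, nadd, badd]; norm_num
    rw [← h1, Real.sqrt_sq (mul_nonneg ha hb)]
  have hab' : a' * b' = √10 := by
    have h1 : (a' * b') ^ 2 = 10 := by rw [mul_pow, nsub, bsub]; norm_num
    rw [← h1, Real.sqrt_sq (mul_nonneg ha' hb')]
  have h10 : √10 = 3 := by
    have h1 : (a + b) ^ 2 = 7 + 2 * √10 := by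
      rw [← hab]; linear_combination nadd + badd
    have h2 : (a' + b') ^ 2 = 7 + 2 * √10 := by
      rw [← hab']; linear_combination nsub + bsub
    rw [h1, h2, nadd, nsub] at h
    have hs2 : 0 < s ^ 2 := by positivity
    have h3 : s ^ 2 * (4 * √10 - 12) = 0 := by linear_combination h
    rcases mul_eq_zero.1 h3 with h4 | h4
    · exact absurd h4 hs2.ne'
    · linarith
  have := Real.sq_sqrt (show (0 : ℝ) ≤ 10 by norm_num)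
  rw [h10] at this
  norm_num at this

/-- **Every Hilbert space of dimension at least two.** Let `K` be a real or complex Hilbert space
of dimension at least `2` (finite or infinite) and `ε > 0`. There is a Banach space `E` and a
linear isomorphism `A` of `K` onto `E` with `‖x‖ ≤ ‖A x‖ ≤ (1 + ε) ‖x‖` such that `E` is reflexive,
strictly convex and admits the alternating method, although the norm of `E` is not induced by an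
inner product. -/
theorem result (𝕜 : Type) [RCLike 𝕜] (K : Type u) [NormedAddCommGroup K] [InnerProductSpace 𝕜 K]
    [CompleteSpace K] (hK : 2 ≤ Module.rank 𝕜 K) (ε : ℝ) (hε : 0 < ε) :
    ∃ (E : Type u) (_ : NormedAddCommGroup E) (_ : NormedSpace 𝕜 E) (A : K ≃L[𝕜] E),
      (∀ x, ‖x‖ ≤ ‖A x‖ ∧ ‖A x‖ ≤ (1 + ε) * ‖x‖) ∧
      CompleteSpace E ∧ ReflexiveSpace 𝕜 E ∧ StrictlyConvex E ∧
      UniqueNearestPoints 𝕜 E ∧ AdmitsAlternatingMethod 𝕜 E ∧ ¬ NormFromInnerProduct 𝕜 E := by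
  obtain ⟨e, f, he, hf, hef⟩ : ∃ e f : K, ‖e‖ = 1 ∧ ‖f‖ = 1 ∧ inner 𝕜 e f = (0 : 𝕜) := by
    have h1 : ((2 : ℕ) : Cardinal) ≤ Module.rank 𝕜 K := by exact_mod_cast hK
    obtain ⟨v, hv⟩ := le_rank_iff_exists_linearIndependent_finset.1 h1
    obtain ⟨hcard, hli⟩ := hv
    have h2 : Fintype.card v = 2 := by rw [Fintype.card_coe, hcard]
    let b : Fin 2 ≃ v := (Fintype.equivFinOfCardEq h2).symm
    have hli2 : LinearIndependent 𝕜 (fun i : Fin 2 => ((b i : v) : K)) := hli.comp b b.injective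
    have ho := InnerProductSpace.gramSchmidtNormed_orthonormal hli2
    exact ⟨_, _, ho.1 0, ho.1 1, ho.2 (by decide)⟩
  obtain ⟨s, hs0, hs1, hs2⟩ : ∃ s : ℝ, 0 < s ∧ s ≤ 1 ∧ 1 + 9 * s ^ 2 ≤ (1 + ε) ^ 2 := by
    refine ⟨min 1 (ε / 9), by positivity, min_le_left _ _, ?_⟩
    have h1 : min 1 (ε / 9) ≤ ε / 9 := min_le_right _ _
    have h2 : min 1 (ε / 9) ≤ 1 := min_le_left _ _
    have h3 : 0 < min 1 (ε / 9) := by positivity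
    nlinarith
  have hcomplete : CompleteSpace (X 𝕜 s e) := X_complete 𝕜
  refine ⟨X 𝕜 s e, inferInstance, inferInstance, (equivK 𝕜 s e).symm, fun x => ?_, hcomplete,
    X_reflexive 𝕜, ?_, ?_, ?_, X_not_inner 𝕜 he hs0 hf hef⟩
  · have h1 : ‖(equivK 𝕜 s e).symm x‖ ^ 2 = ‖x‖ ^ 2 + s ^ 2 * (‖x‖ + ‖B 𝕜 e x‖) ^ 2 :=
      el_norm 𝕜 hs0.le x
    have h2 := B_le 𝕜 he x
    have h3 := norm_nonneg x
    have h4 := norm_nonneg (B 𝕜 e x)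
    constructor
    · apply le_of_sq_le_sq _ (norm_nonneg _)
      rw [h1]
      nlinarith [mul_nonneg (sq_nonneg s) (sq_nonneg (‖x‖ + ‖B 𝕜 e x‖))]
    · apply le_of_sq_le_sq _ (by positivity)
      rw [h1, mul_pow]
      have h5 : (‖x‖ + ‖B 𝕜 e x‖) ^ 2 ≤ (3 * ‖x‖) ^ 2 :=
        pow_le_pow_left₀ (by positivity) (by linarith) 2
      have h6 := mul_le_mul_of_nonneg_left h5 (sq_nonneg s)
      have h7 := mul_le_mul_of_nonneg_right hs2 (sq_nonneg ‖x‖)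
      nlinarith
  · intro x y hx hy hxy
    exact strict_convex (𝕜 := 𝕜) (m := 1 / 10) (by norm_num) (X_lower 𝕜 hs0.le he hs1) x y hx hy hxy
  · intro G hG x
    exact existsUnique_nearest (m := 1 / 10) (by norm_num) (X_lower 𝕜 hs0.le he hs1) G hG x
  · exact admits (m := 1 / 10) (M := 2) (by norm_num) (by norm_num) (X_lower 𝕜 hs0.le he hs1)
      (X_upper 𝕜 hs0.le he hs1)

end space

end Pool.Agent.Results.MP_b372c7_an.EveryHilbertSpace
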